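import Pool.Agent.X157.AgreeMain

set_option autoImplicit false

/-! An Eulerian poset which agrees with the face lattice of a polytope outside of the faces of one
dimension `r`, `1 ≤ r ≤ d - 2`, is that face lattice. -/

namespace Pool.Agent.Results.MP_492a05_co.OneRankDetermined

open Pool.Agent.X157.Poly Pool.Agent.X157.AgreeCore Pool.Agent.X157.AgreeMain

/-- The bijection `e` identifies the elements of rank different from `ρ` of the poset `α` (with rank
function `rq`) with the faces of `P` of rank different from `ρ`, with the same ranks and the same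
order relations. (Ranks are dimensions plus one.) -/
structure Agrees {d : ℕ} (P : Polytope d) {α : Type} [PartialOrder α] (rq : α → ℕ) (ρ : ℕ)
    (e : {x : α // rq x ≠ ρ} ≃ {F : P.Face // P.rk F ≠ ρ}) : Prop where
  rk : ∀ x, P.rk (e x : P.Face) = rq x
  le : ∀ x y : {x : α // rq x ≠ ρ}, (x : α) ≤ y ↔ (e x : P.Face) ≤ (e y : P.Face)

/-- Let `P` be an abstract `d`-polytope whose face poset is a lattice (for instance any convex
`d`-polytope), and `1 ≤ r ≤ d - 2`. Every Eulerian poset which agrees with the face lattice of `P`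
everywhere except at dimension `r` (rank `r + 1`) is equal to it: the identification extends to an
isomorphism. -/
theorem result {d : ℕ} (P : Polytope d) (hL : ∀ x y : P.Face, ∃ z, IsLUB {x, y} z) (r : ℕ)
    (h1 : 1 ≤ r) (h2 : r + 2 ≤ d) {α : Type} [PartialOrder α] [BoundedOrder α] (rq : α → ℕ)
    (hQ : IsEulerian rq) (e : {x : α // rq x ≠ r + 1} ≃ {F : P.Face // P.rk F ≠ r + 1})
    (he : Agrees P rq (r + 1) e) :
    ∃ φ : α ≃o P.Face, ∀ (x : α) (hx : rq x ≠ r + 1), φ x = (e ⟨x, hx⟩ : P.Face) := by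
  classical
  let f : α → P.Face := fun x => if h : rq x ≠ r + 1 then (e ⟨x, h⟩ : P.Face) else ⊥
  let g : P.Face → α := fun F => if h : P.rk F ≠ r + 1 then (e.symm ⟨F, h⟩ : α) else ⊥
  have hf : ∀ x (h : rq x ≠ r + 1), f x = (e ⟨x, h⟩ : P.Face) := fun x h => dif_pos h
  have hg : ∀ F (h : P.rk F ≠ r + 1), g F = (e.symm ⟨F, h⟩ : α) := fun F h => dif_pos h
  have hgr : ∀ F (h : P.rk F ≠ r + 1), rq (g F) = P.rk F := by
    intro F h
    rw [hg F h, ← he.rk]
    rw [e.apply_symm_apply]
  have hI : Ident P rq (r + 1) f g := by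
    refine ⟨?_, hgr, ?_, ?_, ?_⟩
    · intro x hx
      rw [hf x hx, he.rk]
    · intro F hF
      rw [hf _ (by rw [hgr F hF]; exact hF)]
      have : (⟨g F, by rw [hgr F hF]; exact hF⟩ : {x : α // rq x ≠ r + 1}) = e.symm ⟨F, hF⟩ :=
        Subtype.ext (hg F hF)
      rw [this, e.apply_symm_apply]
    · intro x hx
      have h3 : P.rk (f x) ≠ r + 1 := by rw [hf x hx, he.rk]; exact hx
      rw [hg _ h3]
      have : (⟨f x, h3⟩ : {F : P.Face // P.rk F ≠ r + 1}) = e ⟨x, hx⟩ := Subtype.ext (hf x hx)
      rw [this, e.symm_apply_apply]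
    · intro F G hF hG
      rw [hg F hF, hg G hG, he.le, e.apply_symm_apply, e.apply_symm_apply]
  obtain ⟨φ, hφ⟩ := exists_iso hI hQ hL (by omega) (by omega)
  exact ⟨φ, fun x hx => by rw [hφ x hx, hf x hx]⟩

end Pool.Agent.Results.MP_492a05_co.OneRankDetermined
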